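import Pool.Agent.R684.VG.Main
import Pool.Agent.R372.VG.BB
import Pool.Agent.R372.VG.LIMG
import Pool.Agent.R372.VG.TR
import Pool.Agent.R973.VGSH
import Pool.Agent.R369.VGBS
import Pool.Agent.R657.VGWRU
import Pool.Agent.R209.VG.Zg
import Pool.Agent.R650.VGNF

set_option autoImplicit false

/-!
# A torsion-free residually finite group with bounded virtual gap between the first Betti number
and the first L²-Betti number, which is neither free nor a surface group

The group is the free product of the Baumslag-Solitar group BS(1,2) and the infinite cyclic group.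
-/

namespace Pool.Agent.Results.MP_a85771_al.BaumslagSolitarFreeProduct

open Pool.Agent.W649.ZL Pool.Agent.R684.PN Pool.Agent.H919R3.Grp

/-- `σ s`, `s ∈ S`, generate `H` as a monoid -/
def Generates {H S : Type} [Group H] (σ : S → H) : Prop :=
  ∀ g : H, ∃ L : List S, (L.map σ).prod = g

/-- the cocycles of `H`, restricted to the generators: all `f : H × S → ℂ` (written as functions
of two variables) of the form `f x s = c (σ s) x` for a cocycle `c : H → ℂ^H`,
`c (g h) = c g + g · c h` -/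
def cocycles {H S : Type} [Group H] (σ : S → H) : Set (H → S → ℂ) :=
  {f | ∃ c : H → H → ℂ, (∀ g h x, c (g * h) x = c g x + c h (g⁻¹ * x)) ∧
    ∀ x s, f x s = c (σ s) x}

/-- the `ℓ²`-coboundaries of `H`, restricted to the generators: `f x s = u ((σ s)⁻¹ x) - u x` for
some `u ∈ ℓ²(H)` -/
def coboundaries {H S : Type} [Group H] (σ : S → H) : Set (H → S → ℂ) :=
  {f | ∃ u : H → ℂ, Summable (fun x => ‖u x‖ ^ 2) ∧ ∀ x s, f x s = u ((σ s)⁻¹ * x) - u x}

/-- `f` is in the closed unit ball of the Hilbert space `ℓ²(H × S)` -/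
def UnitBall {H S : Type} (f : H → S → ℂ) : Prop :=
  Summable (fun p : H × S => ‖f p.1 p.2‖ ^ 2) ∧ ∑' p : H × S, ‖f p.1 p.2‖ ^ 2 ≤ 1

/-- the von Neumann dimension over `H` of the closure of `V ∩ ℓ²(H × S)`, `V` an invariant
subspace: the sum over `s` of `⟨P δ_(1,s), δ_(1,s)⟩ = ‖P δ_(1,s)‖²`, `P` the projection onto this
closure; this number is the supremum of `|f (1,s)|²` over the `f` in `V` and in the unit ball -/
noncomputable def vNdim {H S : Type} [Group H] [Fintype S] (V : Set (H → S → ℂ)) : ℝ :=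
  ∑ s : S, sSup {r : ℝ | ∃ f ∈ V, UnitBall f ∧ r = ‖f 1 s‖ ^ 2}

/-- the first `L²`-Betti number of the group `H` with finite generating family `σ`: the
von Neumann dimension of the reduced first `ℓ²`-cohomology -/
noncomputable def l2Betti {H S : Type} [Group H] [Fintype S] (σ : S → H) : ℝ :=
  vNdim (cocycles σ) - vNdim (coboundaries σ)

/-- the first Betti number: the dimension of `H¹(H; ℂ) = Hom(H, ℂ)` -/
noncomputable def betti (H : Type) [Group H] : ℕ := Module.finrank ℂ (Additive H →+ ℂ)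

/-- the fundamental group of the closed orientable surface of genus `g`:
`⟨a_i, b_i | [a_1,b_1] ⋯ [a_g,b_g]⟩` -/
abbrev SurfO (g : ℕ) : Type := PresentedGroup
  ({(List.ofFn fun i : Fin g => FreeGroup.of (i, false) * FreeGroup.of (i, true) *
    (FreeGroup.of (i, false))⁻¹ * (FreeGroup.of (i, true))⁻¹).prod} :
    Set (FreeGroup (Fin g × Bool)))

/-- the fundamental group of the closed non-orientable surface of Euler characteristic `2 - k`:
`⟨c_1, ..., c_k | c_1² ⋯ c_k²⟩` -/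
abbrev SurfN (k : ℕ) : Type := PresentedGroup
  ({(List.ofFn fun i : Fin k => FreeGroup.of i * FreeGroup.of i).prod} : Set (FreeGroup (Fin k)))

/-- the Hilbert space `ℓ²(H × S)` -/
noncomputable abbrev Hil0 (H S : Type) := lp (fun _ : H × S => ℂ) 2

/-- the `ℓ²`-cocycles of `H`: `f` is the restriction to the generators `σ s` of a
cocycle `c : H → ℂ^H`, `c (g h) = c g + g · c h` -/
def cocycles0 {H S : Type} [Group H] (σ : S → H) : Submodule ℂ (Hil0 H S) where
  carrier := {f | ∃ c : H → H → ℂ, (∀ g h x, c (g * h) x = c g x + c h (g⁻¹ * x)) ∧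
    ∀ x s, f (x, s) = c (σ s) x}
  add_mem' := by
    rintro f g ⟨c, hc, hf⟩ ⟨d, hd, hg⟩
    refine ⟨fun h x => c h x + d h x, fun g h x => ?_, fun x s => ?_⟩
    · simp only [hc g h x, hd g h x]
      ring
    · rw [lp.coeFn_add, Pi.add_apply, hf, hg]
  zero_mem' := ⟨fun _ _ => 0, fun g h x => by simp, fun x s => rfl⟩
  smul_mem' := by
    rintro a f ⟨c, hc, hf⟩
    refine ⟨fun h x => a * c h x, fun g h x => ?_, fun x s => ?_⟩
    · simp only [hc g h x]
      ring
    · rw [lp.coeFn_smul, Pi.smul_apply, hf, smul_eq_mul]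

/-- the `ℓ²`-coboundaries of `H`, restricted to the generators `σ s` -/
def coboundaries0 {H S : Type} [Group H] (σ : S → H) : Submodule ℂ (Hil0 H S) where
  carrier := {f | ∃ u : Hil0 H Unit, ∀ x s, f (x, s) = u ((σ s)⁻¹ * x, ()) - u (x, ())}
  add_mem' := by
    rintro f g ⟨u, hu⟩ ⟨v, hv⟩
    refine ⟨u + v, fun x s => ?_⟩
    rw [lp.coeFn_add, lp.coeFn_add, Pi.add_apply, Pi.add_apply, Pi.add_apply, hu, hv]
    ring
  zero_mem' := ⟨0, fun x s => by simp⟩
  smul_mem' := by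
    rintro a f ⟨u, hu⟩
    refine ⟨a • u, fun x s => ?_⟩
    rw [lp.coeFn_smul, lp.coeFn_smul, Pi.smul_apply, Pi.smul_apply, Pi.smul_apply, hu]
    simp only [smul_eq_mul]
    ring

open scoped Classical in
/-- the von Neumann dimension over `H` of (the closure of) a subspace `V` of `ℓ²(H × S)`:
the sum over `s` of `⟨P δ_(1,s), δ_(1,s)⟩ = ‖P δ_(1,s)‖²`, `P` the projection onto the closure -/
noncomputable def vNdim0 {H S : Type} [Group H] [Fintype S] (V : Submodule ℂ (Hil0 H S)) : ℝ :=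
  ∑ s : S, ‖V.topologicalClosure.starProjection (lp.single 2 ((1 : H), s) (1 : ℂ))‖ ^ 2

theorem unitBall_iff {H S : Type} (f : Hil0 H S) :
    UnitBall (fun x s => f (x, s)) ↔ ‖f‖ ≤ 1 := by
  have h2 : ((2 : ENNReal)).toReal = 2 := by norm_num
  have h := lp.norm_rpow_eq_tsum (p := 2) (by rw [h2]; norm_num) f
  have hs := (memℓp_gen_iff (p := 2) (by rw [h2]; norm_num)).1 (lp.memℓp f)
  rw [h2] at h hs
  simp only [Real.rpow_two] at h hs
  constructor
  · rintro ⟨-, h1⟩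
    have h3 : ‖f‖ ^ 2 ≤ 1 := by rw [h]; exact h1
    exact (sq_le_one_iff₀ (norm_nonneg f)).1 h3
  · intro h1
    refine ⟨hs, ?_⟩
    have h3 : ‖f‖ ^ 2 ≤ 1 := (sq_le_one_iff₀ (norm_nonneg f)).2 h1
    rw [h] at h3
    exact h3

theorem exists_of_unitBall {H S : Type} (f : H → S → ℂ) (hf : UnitBall f) :
    ∃ f' : Hil0 H S, (fun x s => f' (x, s)) = f := by
  have h2 : ((2 : ENNReal)).toReal = 2 := by norm_num
  have hm : Memℓp (fun p : H × S => f p.1 p.2) 2 := by
    rw [memℓp_gen_iff (by rw [h2]; norm_num), h2]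
    simp only [Real.rpow_two]
    exact hf.1
  exact ⟨⟨_, hm⟩, rfl⟩

open scoped Classical in
theorem sup_eq {H S : Type} [Group H] (V : Submodule ℂ (Hil0 H S)) (s : S) :
    sSup {r : ℝ | ∃ f ∈ V, ‖f‖ ≤ 1 ∧ r = ‖f (1, s)‖ ^ 2} =
      ‖V.topologicalClosure.starProjection (lp.single 2 ((1 : H), s) (1 : ℂ))‖ ^ 2 := by
  set δ : Hil0 H S := lp.single 2 ((1 : H), s) (1 : ℂ) with hδ
  set P := V.topologicalClosure.starProjection δ with hP
  have hin : ∀ f : Hil0 H S, inner ℂ δ f = f (1, s) := by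
    intro f
    rw [hδ, lp.inner_single_left]
    simp
  have hPmem : P ∈ V.topologicalClosure := Submodule.starProjection_apply_mem _ _
  have hPin : ∀ f ∈ V.topologicalClosure, inner ℂ P f = f (1, s) := by
    intro f hf
    rw [← hin f, hP, Submodule.inner_starProjection_left_eq_right,
      Submodule.starProjection_eq_self_iff.2 hf]
  have hub : ∀ r ∈ {r : ℝ | ∃ f ∈ V, ‖f‖ ≤ 1 ∧ r = ‖f (1, s)‖ ^ 2}, r ≤ ‖P‖ ^ 2 := by
    rintro r ⟨f, hf, hf1, rfl⟩
    rw [← hPin f (V.le_topologicalClosure hf)]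
    have h1 : ‖inner ℂ P f‖ ≤ ‖P‖ * ‖f‖ := norm_inner_le_norm P f
    have h2 : ‖P‖ * ‖f‖ ≤ ‖P‖ := mul_le_of_le_one_right (norm_nonneg P) hf1
    exact pow_le_pow_left₀ (norm_nonneg _) (h1.trans h2) 2
  have h0 : (0 : ℝ) ∈ {r : ℝ | ∃ f ∈ V, ‖f‖ ≤ 1 ∧ r = ‖f (1, s)‖ ^ 2} :=
    ⟨0, V.zero_mem, by simp, by simp⟩
  apply le_antisymm
  · exact csSup_le ⟨0, h0⟩ hub
  · set M := sSup {r : ℝ | ∃ f ∈ V, ‖f‖ ≤ 1 ∧ r = ‖f (1, s)‖ ^ 2} with hM
    have hbdd : BddAbove {r : ℝ | ∃ f ∈ V, ‖f‖ ≤ 1 ∧ r = ‖f (1, s)‖ ^ 2} := ⟨‖P‖ ^ 2, hub⟩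
    have hM0 : 0 ≤ M := le_csSup hbdd h0
    have hV : ∀ f ∈ V, ‖inner ℂ δ f‖ ^ 2 ≤ M * ‖f‖ ^ 2 := by
      intro f hf
      by_cases hf0 : ‖f‖ = 0
      · have : f = 0 := norm_eq_zero.1 hf0
        rw [this]
        simp
      · have hpos : 0 < ‖f‖ := lt_of_le_of_ne (norm_nonneg f) (Ne.symm hf0)
        have h1 : ‖(((‖f‖)⁻¹ : ℝ) : ℂ) • f‖ ≤ 1 := by
          rw [norm_smul, Complex.norm_real, Real.norm_of_nonneg (inv_nonneg.2 (norm_nonneg f)),
            inv_mul_cancel₀ hf0]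
        have h2 : ‖((((‖f‖)⁻¹ : ℝ) : ℂ) • f : Hil0 H S) (1, s)‖ ^ 2 ≤ M :=
          le_csSup hbdd ⟨_, V.smul_mem _ hf, h1, rfl⟩
        rw [← hin, inner_smul_right, norm_mul, Complex.norm_real,
          Real.norm_of_nonneg (inv_nonneg.2 (norm_nonneg f)), mul_pow, inv_pow,
          inv_mul_le_iff₀ (by positivity)] at h2
        linarith
    have hcl : ∀ f ∈ V.topologicalClosure, ‖inner ℂ δ f‖ ^ 2 ≤ M * ‖f‖ ^ 2 := by
      intro f hf
      have hc : IsClosed {f : Hil0 H S | ‖inner ℂ δ f‖ ^ 2 ≤ M * ‖f‖ ^ 2} :=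
        isClosed_le (by fun_prop) (by fun_prop)
      have hf' : f ∈ closure (V : Set (Hil0 H S)) := hf
      exact closure_minimal (fun g hg => hV g hg) hc hf'
    have h3 := hcl P hPmem
    have h4 : inner ℂ δ P = (((‖P‖ ^ 2 : ℝ)) : ℂ) := by
      rw [hin, ← hPin P hPmem, inner_self_eq_norm_sq_to_K]
      simp
    rw [h4, Complex.norm_real, Real.norm_of_nonneg (by positivity)] at h3
    by_cases hp : ‖P‖ = 0
    · rw [hp]
      simpa using hM0
    · have hpos : 0 < ‖P‖ ^ 2 := by positivity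
      have h5 : ‖P‖ ^ 2 * ‖P‖ ^ 2 ≤ M * ‖P‖ ^ 2 := by rw [← sq]; exact h3
      exact le_of_mul_le_mul_right h5 hpos

theorem vNdim_eq1 {H S : Type} [Group H] [Fintype S] (V : Set (H → S → ℂ))
    (V0 : Submodule ℂ (Hil0 H S)) (h : ∀ f : Hil0 H S, f ∈ V0 ↔ (fun x s => f (x, s)) ∈ V) :
    vNdim V = vNdim0 V0 := by
  unfold vNdim vNdim0
  refine Finset.sum_congr rfl fun s _ => ?_
  rw [← sup_eq]
  congr 1
  ext r
  constructor
  · rintro ⟨f, hf, hb, rfl⟩
    obtain ⟨f', rfl⟩ := exists_of_unitBall f hb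
    exact ⟨f', (h f').2 hf, (unitBall_iff f').1 hb, rfl⟩
  · rintro ⟨f, hf, hb, rfl⟩
    exact ⟨fun x s => f (x, s), (h f).1 hf, (unitBall_iff f).2 hb, rfl⟩

theorem l2Betti_eq0 {H S : Type} [Group H] [Fintype S] (σ : S → H) :
    l2Betti σ = vNdim0 (cocycles0 σ) - vNdim0 (coboundaries0 σ) := by
  unfold l2Betti
  rw [vNdim_eq1 (cocycles σ) (cocycles0 σ) (fun f => Iff.rfl),
    vNdim_eq1 (coboundaries σ) (coboundaries0 σ)]
  have h2 : ((2 : ENNReal)).toReal = 2 := by norm_num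
  intro f
  constructor
  · rintro ⟨u, hu⟩
    refine ⟨fun x => u (x, ()), ?_, hu⟩
    have hs := (memℓp_gen_iff (p := 2) (by rw [h2]; norm_num)).1 (lp.memℓp u)
    rw [h2] at hs
    simp only [Real.rpow_two] at hs
    exact hs.comp_injective (i := fun x : H => (x, ())) (fun x y h => congrArg Prod.fst h)
  · rintro ⟨u, hs, hu⟩
    have hm : Memℓp (fun p : H × Unit => u p.1) 2 := by
      rw [memℓp_gen_iff (by rw [h2]; norm_num), h2]
      simp only [Real.rpow_two]
      exact hs.comp_injective (i := fun p : H × Unit => p.1) (fun x y h => Prod.ext h rfl)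
    exact ⟨⟨_, hm⟩, hu⟩

theorem cocycles_eq {H S : Type} [Group H] (σ : S → H) (hσ : Generates σ) :
    cocycles0 σ = UU σ (MonoidHom.id H) ∅ := by
  have hDD : ∀ (c : H → H → ℂ) (_ : ∀ g h x, c (g * h) x = c g x + c h (g⁻¹ * x))
      (f : H × S → ℂ) (_ : ∀ x s, f (x, s) = c (σ s) x) (L : List S) (x : H),
      DD (fun s => (MonoidHom.id H) (σ s)) L f x = c (L.map σ).prod x := by
    intro c hc f hf L
    induction L with
    | nil =>
      intro x
      have h1 := hc 1 1 x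
      simp only [mul_one, inv_one, one_mul] at h1
      have h2 : c 1 x = 0 := by linear_combination -h1
      simp only [DD, List.map_nil, List.prod_nil, h2]
    | cons s L ih =>
      intro x
      simp only [DD, List.map_cons, List.prod_cons, hc (σ s) _ x, ← hf]
      congr 1
      exact ih _
  ext f
  rw [mem_UU]
  constructor
  · rintro ⟨c, hc, hf⟩
    refine ⟨fun L L' h x => ?_, fun L hL => absurd hL (Set.notMem_empty L)⟩
    rw [hDD c hc f hf, hDD c hc f hf, h]
  · rintro ⟨h1, -⟩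
    choose W hW using hσ
    refine ⟨fun g x => DD (fun s => (MonoidHom.id H) (σ s)) (W g) f x, fun g h x => ?_,
      fun x s => ?_⟩
    · have e1 := h1 (W (g * h)) (W g ++ W h)
        (by rw [List.map_append, List.prod_append, hW, hW, hW]) x
      rw [DD_append] at e1
      have e2 : (List.map (fun s => (MonoidHom.id H) (σ s)) (W g)).prod = g := hW g
      rw [e2] at e1
      exact e1
    · have h2 := h1 (W (σ s)) [s] (by rw [hW]; simp) x
      have h3 : DD (fun s => (MonoidHom.id H) (σ s)) [s] f x = f (x, s) := by simp [DD]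
      rw [h3] at h2
      exact h2.symm

theorem vNdim_eq {H S : Type} [Group H] [Fintype S] (V : Submodule ℂ (Hil0 H S)) :
    vNdim0 V = vd V := by
  unfold vNdim0 vd
  rfl

/-- The statement of the main theorem, from the pieces. -/
theorem aux (hSH : Pool.Agent.R684.VG.S_SH) (hZG : Pool.Agent.R684.VG.S_ZG)
    (hTR : Pool.Agent.R684.VG.S_TR) (hLIM : Pool.Agent.R684.VG.S_LIMG)
    (hBB : Pool.Agent.R684.VG.S_BB) (hBS : Pool.Agent.R684.VG.S_BS)
    (hNF : Pool.Agent.R684.VG.S_NF) :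
    ∃ (G : Type) (_ : Group G), Group.FG G ∧ (∀ (g : G) (n : ℕ), 0 < n → g ^ n = 1 → g = 1) ∧
      (∀ g : G, g ≠ 1 → ∃ N : Subgroup G, N.Normal ∧ N.FiniteIndex ∧ g ∉ N) ∧
      (∀ (S : Type) [Fintype S] (σ : S → G), Generates σ → 0 < l2Betti σ) ∧
      (∃ C : ℝ, ∀ (H : Subgroup G) [H.FiniteIndex] (S : Type) [Fintype S] (σ : S → H),
        Generates σ → (betti H : ℝ) - l2Betti σ ≤ C) ∧
      (∀ X : Type, IsEmpty (G ≃* FreeGroup X)) ∧ (∀ g : ℕ, 2 ≤ g → IsEmpty (G ≃* SurfO g)) ∧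
      (∀ k : ℕ, 3 ≤ k → IsEmpty (G ≃* SurfN k)) := by
  obtain ⟨B, _, a, b, hcl, hab, ha, htf, hrf, hu⟩ := hBS
  have hfg : Group.FG (Wr B) := by
    rw [Group.fg_iff]
    exact ⟨_, Wr_closure _ hcl, ((Set.toFinite _).image _).insert _⟩
  have hrf' : ResFin (Wr B) := Wr_resFin hrf
  refine ⟨Wr B, inferInstance, hfg, Wr_torsionFree htf, ?_, ?_, ?_, hNF B a b hcl hab ha⟩
  · intro g hg
    obtain ⟨N, hN, hgN⟩ := hrf' g hg
    exact ⟨N.normalCore, inferInstance, inferInstance, fun h => hgN (N.normalCore_le h)⟩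
  · intro S _ σ hσ
    have hr : (MonoidHom.id (Wr B)).range = ⊤ := MonoidHom.range_eq_top.2 fun x => ⟨x, rfl⟩
    have : (MonoidHom.id (Wr B)).range.FiniteIndex := by rw [hr]; infer_instance
    have h := Pool.Agent.R684.VG.lower hSH hZG hTR hLIM hBB hcl hab hu hrf'
      (MonoidHom.id (Wr B)) (fun _ _ h => h) σ hσ
    rw [hr, Subgroup.index_top] at h
    rw [l2Betti_eq0, cocycles_eq σ hσ, vNdim_eq, vNdim_eq]
    have h' : ((1 : ℕ) : ℝ) ≤ vd (UU σ (MonoidHom.id (Wr B)) ∅) - vd (coboundaries0 σ) := h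
    push_cast at h'
    linarith
  · refine ⟨1, fun H hH S _ σ hσ => ?_⟩
    have : H.subtype.range.FiniteIndex := by rw [H.range_subtype]; exact hH
    have h := Pool.Agent.R684.VG.lower hSH hZG hTR hLIM hBB hcl hab hu hrf'
      H.subtype H.subtype_injective σ hσ
    have h2 := Pool.Agent.R684.VG.upper hSH hZG hcl hab hu H.subtype H.subtype_injective
    unfold betti
    rw [l2Betti_eq0, cocycles_eq σ hσ, vNdim_eq, vNdim_eq, h2]
    have h' : (H.subtype.range.index : ℝ) ≤ vd (UU σ (MonoidHom.id H) ∅) - vd (coboundaries0 σ) := h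
    push_cast
    linarith

/-- Main theorem (negative answer to Q1). There is a torsion-free, finitely generated, residually
finite group `G` with positive first `L²`-Betti number for which the differences
`b₁(H) - b₁⁽²⁾(H)`, `H` of finite index in `G`, are bounded above, and which is neither a free group
nor the fundamental group of a closed surface of negative Euler characteristic. -/
theorem result : ∃ (G : Type) (_ : Group G), Group.FG G ∧
    (∀ (g : G) (n : ℕ), 0 < n → g ^ n = 1 → g = 1) ∧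
    (∀ g : G, g ≠ 1 → ∃ N : Subgroup G, N.Normal ∧ N.FiniteIndex ∧ g ∉ N) ∧
    (∀ (S : Type) [Fintype S] (σ : S → G), Generates σ → 0 < l2Betti σ) ∧
    (∃ C : ℝ, ∀ (H : Subgroup G) [H.FiniteIndex] (S : Type) [Fintype S] (σ : S → H),
      Generates σ → (betti H : ℝ) - l2Betti σ ≤ C) ∧
    (∀ X : Type, IsEmpty (G ≃* FreeGroup X)) ∧ (∀ g : ℕ, 2 ≤ g → IsEmpty (G ≃* SurfO g)) ∧
    (∀ k : ℕ, 3 ≤ k → IsEmpty (G ≃* SurfN k)) :=
  aux Pool.Agent.R973.VGSH.t_SH (Pool.Agent.R209.VG.t_ZG Pool.Agent.R684.VG.t_WRU)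
    Pool.Agent.R372.VG.TR.t_TR Pool.Agent.R372.VG.LIMG.t_LIMG Pool.Agent.R372.VG.BB'.t_BB
    Pool.Agent.R369.VGBS.t_BS Pool.Agent.R650.VG.t_NF

end Pool.Agent.Results.MP_a85771_al.BaumslagSolitarFreeProduct
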